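import Pool.Agent.Q10.Enh.Lower

/-!
# The critical exponent for the minimal enhanced spanning time is `1 / 2`

`Z` is a zero-set (a finite Young diagram in the quarter plane), `Ten Z r c` the enhanced growth
map for the enhancement pair `(r, c)`, `muEn Z` the maximal enhanced spanning time and `side Z`
the side of the largest square contained in `Z`.
-/

set_option autoImplicit false

open Set
open scoped ENNReal

namespace Pool.Agent.Results.MP_3b4555_co.CriticalExponent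

/-- The rectangle `R_{a,b}`. -/
def rect (a b : ℕ) : Set (ℕ × ℕ) := {p | p.1 < a ∧ p.2 < b}

/-- Zero-sets: finite unions of rectangles `R_{a,b}` with `a, b ≥ 1`. -/
def IsZeroSet (Z : Set (ℕ × ℕ)) : Prop :=
  ∃ I : Set (ℕ × ℕ), I.Finite ∧ (∀ p ∈ I, 1 ≤ p.1 ∧ 1 ≤ p.2) ∧ Z = ⋃ p ∈ I, rect p.1 p.2

/-- `row(x, A)`: the number of points of `A` on the horizontal line through `x`. -/
noncomputable def row (x : ℕ × ℕ) (A : Set (ℕ × ℕ)) : ℕ∞ := {y ∈ A | y.2 = x.2}.encard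

/-- `col(x, A)`: the number of points of `A` on the vertical line through `x`. -/
noncomputable def col (x : ℕ × ℕ) (A : Set (ℕ × ℕ)) : ℕ∞ := {y ∈ A | y.1 = x.1}.encard

/-- Enhancement pairs: two weakly decreasing sequences of non-negative integers, each with
finitely many nonzero terms. -/
structure IsEnhancement (r c : ℕ → ℕ) : Prop where
  r_anti : Antitone r
  c_anti : Antitone c
  r_fin : {j | r j ≠ 0}.Finite
  c_fin : {i | c i ≠ 0}.Finite

/-- The enhanced growth map: a point `x = (i, j)` is added if the pair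
`(row(x, A) + r_j, col(x, A) + c_i)` is not in `Z`. -/
def Ten (Z : Set (ℕ × ℕ)) (r c : ℕ → ℕ) (A : Set (ℕ × ℕ)) : Set (ℕ × ℕ) :=
  A ∪ {x | ¬ ∃ p ∈ Z, row x A + (r x.2 : ℕ∞) = (p.1 : ℕ∞) ∧ col x A + (c x.1 : ℕ∞) = (p.2 : ℕ∞)}

/-- The pair `(r, c)` spans for `Z`. -/
def Spans (Z : Set (ℕ × ℕ)) (r c : ℕ → ℕ) : Prop := ⋃ t : ℕ, (Ten Z r c)^[t] ∅ = univ

/-- The enhanced spanning time: the least `t ≥ 1` for which everything is occupied at time `t`
(`⊤` if there is none). -/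
noncomputable def tauEn (Z : Set (ℕ × ℕ)) (r c : ℕ → ℕ) : ℕ∞ :=
  ⨅ t ∈ {t : ℕ | 1 ≤ t ∧ (Ten Z r c)^[t] ∅ = univ}, (t : ℕ∞)

/-- The maximal enhanced spanning time: the supremum of the enhanced spanning times of the
spanning enhancement pairs. -/
noncomputable def muEn (Z : Set (ℕ × ℕ)) : ℕ∞ :=
  ⨆ p ∈ {p : (ℕ → ℕ) × (ℕ → ℕ) | IsEnhancement p.1 p.2 ∧ Spans Z p.1 p.2}, tauEn Z p.1 p.2

/-- The side of the largest square contained in `Z`. -/
noncomputable def side (Z : Set (ℕ × ℕ)) : ℕ := sSup {s | rect s s ⊆ Z}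

/-- The infimum of `muEn Z / (side Z) ^ α` over the nonempty zero-sets `Z`. -/
noncomputable def infRatio (α : ℝ) : ℝ≥0∞ :=
  ⨅ Z ∈ {Z : Set (ℕ × ℕ) | IsZeroSet Z ∧ Z.Nonempty}, (muEn Z : ℝ≥0∞) / (side Z : ℝ≥0∞) ^ α

/-- The critical exponent for the minimal enhanced spanning time. -/
noncomputable def alphaMin : ℝ := sInf {α : ℝ | 0 < α ∧ infRatio α = 0}

theorem IsZeroSet.lower {Z : Set (ℕ × ℕ)} (hZ : IsZeroSet Z) {a b c d : ℕ} (hac : a ≤ c)
    (hbd : b ≤ d) (h : (c, d) ∈ Z) : (a, b) ∈ Z := by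
  obtain ⟨I, _, _, rfl⟩ := hZ
  simp only [mem_iUnion, rect, mem_setOf_eq] at h ⊢
  obtain ⟨p, hp, h1, h2⟩ := h
  exact ⟨p, hp, by omega, by omega⟩

theorem IsZeroSet.bound {Z : Set (ℕ × ℕ)} (hZ : IsZeroSet Z) :
    ∃ M, ∀ x y, (x, y) ∈ Z → x < M ∧ y < M := by
  obtain ⟨I, hI, _, rfl⟩ := hZ
  obtain ⟨M, hM⟩ := (hI.image (fun p : ℕ × ℕ => p.1)).bddAbove
  obtain ⟨M', hM'⟩ := (hI.image (fun p : ℕ × ℕ => p.2)).bddAbove
  refine ⟨M + M', fun x y h => ?_⟩
  simp only [mem_iUnion, rect, mem_setOf_eq] at h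
  obtain ⟨p, hp, h3, h4⟩ := h
  have h5 : p.1 ≤ M := hM (mem_image_of_mem (fun p : ℕ × ℕ => p.1) hp)
  have h6 : p.2 ≤ M' := hM' (mem_image_of_mem (fun p : ℕ × ℕ => p.2) hp)
  omega

theorem IsZeroSet.bdd {Z : Set (ℕ × ℕ)} (hZ : IsZeroSet Z) : BddAbove {s | rect s s ⊆ Z} := by
  obtain ⟨M, hM⟩ := hZ.bound
  refine ⟨M, fun s hs => ?_⟩
  by_contra hlt
  push Not at hlt
  have h1 : ((M, 0) : ℕ × ℕ) ∈ rect s s := ⟨hlt, by omega⟩
  have h2 := (hM _ _ (hs h1)).1
  omega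

theorem side_sub {Z : Set (ℕ × ℕ)} (hZ : IsZeroSet Z) : rect (side Z) (side Z) ⊆ Z :=
  Nat.sSup_mem (s := {s | rect s s ⊆ Z}) ⟨0, fun p hp => absurd hp.1 (Nat.not_lt_zero _)⟩ hZ.bdd

theorem side_pos {Z : Set (ℕ × ℕ)} (hZ : IsZeroSet Z) (hne : Z.Nonempty) : 1 ≤ side Z := by
  obtain ⟨⟨x, y⟩, h⟩ := hne
  refine le_csSup hZ.bdd ?_
  rintro ⟨a, b⟩ ⟨h1, h2⟩
  dsimp only at h1 h2
  exact hZ.lower (by omega) (by omega) h

/-- a lower set of natural numbers missing `i` is an initial segment -/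
theorem lower_set {S : ℕ → Prop} (hS : ∀ a b, a ≤ b → S b → S a) {i : ℕ} (hi : ¬ S i) :
    ∃ a ≤ i, ∀ k, S k ↔ k < a := by
  classical
  have hex : ∃ k, ¬ S k := ⟨i, hi⟩
  refine ⟨Nat.find hex, Nat.find_min' hex hi, fun k => ⟨fun hk => ?_, fun hk => ?_⟩⟩
  · by_contra hlt
    push Not at hlt
    exact Nat.find_spec hex (hS _ _ hlt hk)
  · by_contra hn
    exact absurd (Nat.find_min' hex hn) (by omega)

theorem encard_Iio (a : ℕ) : (Iio a).encard = (a : ℕ∞) := by
  rw [Set.encard_eq_coe_toFinset_card]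
  simp

theorem row_eq {S : ℕ → ℕ → Prop} {j a : ℕ} (i : ℕ) (h : ∀ k, S k j ↔ k < a) :
    row (i, j) {p | S p.1 p.2} = (a : ℕ∞) := by
  have h1 : {y ∈ {p : ℕ × ℕ | S p.1 p.2} | y.2 = j} = (fun k => (k, j)) '' Iio a := by
    ext ⟨x, y⟩
    simp only [mem_setOf_eq, mem_image, mem_Iio, Prod.mk.injEq]
    constructor
    · rintro ⟨h2, rfl⟩
      exact ⟨x, (h x).1 h2, rfl, rfl⟩
    · rintro ⟨k, hk, rfl, rfl⟩
      exact ⟨(h k).2 hk, rfl⟩
  rw [row]
  dsimp only
  rw [h1, InjOn.encard_image (fun a _ b _ hab => congrArg Prod.fst hab), encard_Iio]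

theorem col_eq {S : ℕ → ℕ → Prop} {i b : ℕ} (j : ℕ) (h : ∀ k, S i k ↔ k < b) :
    col (i, j) {p | S p.1 p.2} = (b : ℕ∞) := by
  have h1 : {y ∈ {p : ℕ × ℕ | S p.1 p.2} | y.1 = i} = (fun k => (i, k)) '' Iio b := by
    ext ⟨x, y⟩
    simp only [mem_setOf_eq, mem_image, mem_Iio, Prod.mk.injEq]
    constructor
    · rintro ⟨h2, rfl⟩
      exact ⟨y, (h y).1 h2, rfl, rfl⟩
    · rintro ⟨k, hk, rfl, rfl⟩
      exact ⟨(h k).2 hk, rfl⟩
  rw [col]
  dsimp only
  rw [h1, InjOn.encard_image (fun a _ b _ hab => congrArg Prod.snd hab), encard_Iio]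

open Q10.Enh in
/-- The iterates of the enhanced growth map in combinatorial form. -/
theorem iterate_eq {Z : Set (ℕ × ℕ)} (hZ : IsZeroSet Z) {r c : ℕ → ℕ} (hr : Antitone r)
    (hc : Antitone c) (t : ℕ) :
    (Ten Z r c)^[t] ∅ = {p | Reach (fun x y => (x, y) ∈ Z) r c t p.1 p.2} := by
  have hlow : ∀ x y x' y' : ℕ, x' ≤ x → y' ≤ y → (x, y) ∈ Z → (x', y') ∈ Z :=
    fun x y x' y' h1 h2 h3 => hZ.lower h1 h2 h3
  induction t with
  | zero =>
    ext p
    simp [Reach]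
  | succ t ih =>
    rw [Function.iterate_succ_apply', ih]
    obtain ⟨S, hS⟩ : ∃ S : ℕ → ℕ → Prop, S = Reach (fun x y => (x, y) ∈ Z) r c t := ⟨_, rfl⟩
    have hSlow : ∀ i j i' j', i' ≤ i → j' ≤ j → S i j → S i' j' := by
      intro i j i' j' h1 h2 h3
      rw [hS] at h3 ⊢
      exact Reach.lower hlow hr hc h1 h2 h3
    rw [← hS]
    ext ⟨i, j⟩
    simp only [Ten, mem_union, mem_setOf_eq]
    constructor
    · intro h
      by_cases hij : S i j
      · rw [hS] at hij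
        exact hij.succ
      · have h2 := h.resolve_left hij
        obtain ⟨a, ha, hak⟩ := lower_set (S := fun k => S k j)
          (fun k l hkl hl => hSlow l j k j hkl le_rfl hl) hij
        obtain ⟨b, hb, hbk⟩ := lower_set (S := fun k => S i k)
          (fun k l hkl hl => hSlow i l i k le_rfl hkl hl) hij
        rw [row_eq i hak, col_eq j hbk] at h2
        refine ⟨a, b, ha, hb, ?_, ?_, ?_⟩
        · intro hz
          exact h2 ⟨_, hz, by push_cast; ring, by push_cast; ring⟩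
        · intro a' ha'
          rw [← hS]
          exact (hak a').2 ha'
        · intro b' hb'
          rw [← hS]
          exact (hbk b').2 hb'
    · rintro ⟨a, b, ha, hb, hz, h1, h2⟩
      by_cases hij : S i j
      · exact Or.inl hij
      · right
        obtain ⟨a₀, ha₀, hak⟩ := lower_set (S := fun k => S k j)
          (fun k l hkl hl => hSlow l j k j hkl le_rfl hl) hij
        obtain ⟨b₀, hb₀, hbk⟩ := lower_set (S := fun k => S i k)
          (fun k l hkl hl => hSlow i l i k le_rfl hkl hl) hij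
        rw [row_eq i hak, col_eq j hbk]
        rintro ⟨⟨x, y⟩, hp, hx, hy⟩
        have hx' : a₀ + r j = x := by exact_mod_cast hx
        have hy' : b₀ + c i = y := by exact_mod_cast hy
        have haa : a ≤ a₀ := by
          by_contra hlt
          push Not at hlt
          have h3 := h1 a₀ hlt
          rw [← hS] at h3
          exact absurd ((hak a₀).1 h3) (lt_irrefl _)
        have hbb : b ≤ b₀ := by
          by_contra hlt
          push Not at hlt
          have h3 := h2 b₀ hlt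
          rw [← hS] at h3
          exact absurd ((hbk b₀).1 h3) (lt_irrefl _)
        exact hz (hZ.lower (by omega) (by omega) hp)

open Q10.Enh in
theorem spans_iff {Z : Set (ℕ × ℕ)} (hZ : IsZeroSet Z) {r c : ℕ → ℕ} (hr : Antitone r)
    (hc : Antitone c) : Spans Z r c ↔ ∀ i j, (r j + i, c i + j) ∉ Z := by
  have hlow : ∀ x y x' y' : ℕ, x' ≤ x → y' ≤ y → (x, y) ∈ Z → (x', y') ∈ Z :=
    fun x y x' y' h1 h2 h3 => hZ.lower h1 h2 h3
  constructor
  · intro h i j
    have h1 : ((i, j) : ℕ × ℕ) ∈ ⋃ t : ℕ, (Ten Z r c)^[t] ∅ := by rw [h]; trivial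
    rw [mem_iUnion] at h1
    obtain ⟨t, ht⟩ := h1
    rw [iterate_eq hZ hr hc t] at ht
    exact good_of_reach hlow ht
  · intro h
    rw [Spans, eq_univ_iff_forall]
    rintro ⟨i, j⟩
    rw [mem_iUnion]
    refine ⟨i + j + 1, ?_⟩
    rw [iterate_eq hZ hr hc]
    exact reach_of_good h _ i j (by omega)

/-! ### The lower bound -/

open Q10.Enh in
theorem side_le_sq {Z : Set (ℕ × ℕ)} (hZ : IsZeroSet Z) {n : ℕ} (h : muEn Z ≤ (n : ℕ∞)) :
    side Z ≤ (n - 1) * (n - 1) := by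
  classical
  obtain ⟨M, hM⟩ := hZ.bound
  have hlow : ∀ x y x' y' : ℕ, x' ≤ x → y' ≤ y → (x, y) ∈ Z → (x', y') ∈ Z :=
    fun x y x' y' h1 h2 h3 => hZ.lower h1 h2 h3
  -- the heights
  have hex : ∀ x, ∃ a, a ≤ M ∧ ∀ k, (x, k) ∈ Z ↔ k < a := fun x =>
    lower_set (S := fun k => (x, k) ∈ Z) (fun k l hkl hl => hZ.lower le_rfl hkl hl)
      (fun hm => absurd (hM _ _ hm).2 (lt_irrefl _))
  choose z hzM hz using hex
  have hanti : Antitone z := by
    intro x x' hx
    by_contra hlt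
    push Not at hlt
    have h1 := (hz x' (z x)).2 hlt
    have h2 := (hz x (z x)).1 (hZ.lower hx le_rfl h1)
    exact lt_irrefl _ h2
  have hzW : z M = 0 := by
    by_contra hne
    have h1 := (hz M 0).2 (by omega)
    exact absurd (hM _ _ h1).1 (lt_irrefl _)
  refine lower (Z := fun x y => (x, y) ∈ Z) (z := z) (W := M) (fun x y => hz x y) hanti hzW
    (fun x y hx hy => side_sub hZ ⟨hx, hy⟩) ?_
  intro r c hr hc hJ hI hgood
  obtain ⟨J, hJ⟩ := hJ
  obtain ⟨I, hI⟩ := hI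
  have henh : IsEnhancement r c := by
    refine ⟨hr, hc, ?_, ?_⟩
    · apply (Set.finite_Iio J).subset
      intro j hj
      by_contra hlt
      exact hj (hJ j (by simpa using hlt))
    · apply (Set.finite_Iio I).subset
      intro j hj
      by_contra hlt
      exact hj (hI j (by simpa using hlt))
  have hsp : Spans Z r c := (spans_iff hZ hr hc).2 hgood
  have h1 : tauEn Z r c ≤ muEn Z := by
    rw [muEn]
    exact le_iSup₂_of_le (r, c) ⟨henh, hsp⟩ le_rfl
  have h2 : tauEn Z r c < ((n + 1 : ℕ) : ℕ∞) :=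
    lt_of_le_of_lt (h1.trans h) (by exact_mod_cast Nat.lt_succ_self n)
  rw [tauEn, iInf_lt_iff] at h2
  obtain ⟨t, ht⟩ := h2
  rw [iInf_lt_iff] at ht
  obtain ⟨⟨_, ht1⟩, ht2⟩ := ht
  have ht3 : t < n + 1 := by exact_mod_cast ht2
  intro i j
  have h3 : ((i, j) : ℕ × ℕ) ∈ (Ten Z r c)^[t] ∅ := by rw [ht1]; trivial
  rw [iterate_eq hZ hr hc] at h3
  exact Reach.mono (by omega) h3

/-! ### The upper bound -/

/-- the widths -/
def X (m a : ℕ) : ℕ := if a = 0 then 0 else m * m * 2 ^ a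

/-- the one-arm zero-sets -/
def arm (m : ℕ) : Set (ℕ × ℕ) :=
  ⋃ p ∈ (fun a => (X m (a + 1), (m - a) * m)) '' {a | a < m}, rect p.1 p.2

theorem mem_arm {m x y : ℕ} : (x, y) ∈ arm m ↔ Q10.Enh.Arm m m (X m) x y := by
  simp only [arm, Q10.Enh.Arm, mem_iUnion, mem_image, mem_setOf_eq, rect]
  constructor
  · rintro ⟨p, ⟨a, ha, rfl⟩, h1, h2⟩
    exact ⟨a, ha, h1, h2⟩
  · rintro ⟨a, ha, h1, h2⟩
    exact ⟨_, ⟨a, ha, rfl⟩, h1, h2⟩

theorem isZeroSet_arm {m : ℕ} (hm : 1 ≤ m) : IsZeroSet (arm m) := by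
  refine ⟨_, (Set.finite_lt_nat m).image _, ?_, rfl⟩
  rintro p ⟨a, ha, rfl⟩
  have h1 : 0 < m - a := by
    have : a < m := ha
    omega
  refine ⟨?_, Nat.mul_pos h1 hm⟩
  dsimp only
  rw [X, if_neg (by omega)]
  exact Nat.one_le_iff_ne_zero.2 (by positivity)

theorem side_arm {m : ℕ} (hm : 1 ≤ m) : side (arm m) = m * m := by
  apply le_antisymm
  · by_contra hlt
    push Not at hlt
    have h1 := side_sub (isZeroSet_arm hm) (show (m * m, m * m) ∈ _ from ⟨hlt, hlt⟩)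
    rw [mem_arm] at h1
    obtain ⟨a, _, _, h2⟩ := h1
    have h3 : (m - a) * m ≤ m * m := Nat.mul_le_mul_right m (by omega)
    omega
  · refine le_csSup (isZeroSet_arm hm).bdd ?_
    rintro ⟨x, y⟩ ⟨h1, h2⟩
    dsimp only at h1 h2
    rw [mem_arm]
    refine ⟨0, by omega, ?_, by simpa using h2⟩
    rw [X, if_neg (by omega)]
    omega

theorem muEn_arm {m : ℕ} (hm : 1 ≤ m) : muEn (arm m) ≤ ((7 * m + 3 : ℕ) : ℕ∞) := by
  rw [muEn, iSup₂_le_iff]
  rintro ⟨r, c⟩ ⟨henh, hsp⟩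
  have hZ := isZeroSet_arm hm
  have hgood := (spans_iff hZ henh.r_anti henh.c_anti).1 hsp
  have hpred : (fun x y => (x, y) ∈ arm m) = Q10.Enh.Arm m m (X m) := by
    funext x y
    exact propext mem_arm
  have hall : ∀ i j, Q10.Enh.Reach (Q10.Enh.Arm m m (X m)) r c (5 * m + 2 * m + 3) i j := by
    apply Q10.Enh.reach_arm hm
    · simp [X]
    · rw [X, if_neg (by omega)]
      have : 0 < m * m * 2 ^ 1 := by positivity
      omega
    · intro a ha
      rw [X, X, if_neg (by omega), if_neg (by omega), pow_succ]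
      exact le_of_eq (by ring)
    · exact henh.r_anti
    · exact henh.c_anti
    · intro i j hcon
      exact hgood i j (mem_arm.2 hcon)
  have huniv : (Ten (arm m) r c)^[7 * m + 3] ∅ = univ := by
    rw [iterate_eq hZ henh.r_anti henh.c_anti, hpred]
    ext ⟨i, j⟩
    simp only [mem_setOf_eq, mem_univ, iff_true]
    have h1 := hall i j
    have h2 : 5 * m + 2 * m + 3 = 7 * m + 3 := by ring
    rw [h2] at h1
    exact h1
  exact iInf₂_le_of_le (7 * m + 3) ⟨by omega, huniv⟩ le_rfl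

/-! ### The exponent -/

theorem one_le_infRatio {α : ℝ} (h0 : 0 < α) (h : α ≤ 1 / 2) : 1 ≤ infRatio α := by
  rw [infRatio, le_iInf₂_iff]
  rintro Z ⟨hZ, hne⟩
  have hs1 := side_pos hZ hne
  have hs : (side Z : ℝ≥0∞) ^ α ≠ 0 := by
    have h1 : (side Z : ℝ≥0∞) ≠ 0 := by
      exact_mod_cast (by omega : side Z ≠ 0)
    exact (ENNReal.rpow_pos (pos_iff_ne_zero.2 h1) (ENNReal.natCast_ne_top _)).ne'
  have hs' : (side Z : ℝ≥0∞) ^ α ≠ ⊤ := by
    apply ENNReal.rpow_ne_top_of_nonneg h0.le (ENNReal.natCast_ne_top _)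
  rw [ENNReal.le_div_iff_mul_le (Or.inl hs) (Or.inl hs'), one_mul]
  by_cases htop : muEn Z = ⊤
  · rw [htop]
    simp
  · obtain ⟨n, hn⟩ := ENat.ne_top_iff_exists.1 htop
    have h1 := side_le_sq hZ (n := n) (by rw [← hn])
    rw [← hn]
    have h2 : side Z ≤ n * n := h1.trans (Nat.mul_le_mul (by omega) (by omega))
    have h3 : (side Z : ℝ≥0∞) ^ α ≤ (side Z : ℝ≥0∞) ^ ((1 : ℝ) / 2) := by
      apply ENNReal.rpow_le_rpow_of_exponent_le _ h
      exact_mod_cast hs1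
    have h4 : (side Z : ℝ≥0∞) ^ ((1 : ℝ) / 2) ≤ ((n : ℝ≥0∞) ^ (2 : ℝ)) ^ ((1 : ℝ) / 2) := by
      apply ENNReal.rpow_le_rpow _ (by norm_num)
      rw [ENNReal.rpow_two, pow_two]
      exact_mod_cast h2
    rw [← ENNReal.rpow_mul] at h4
    norm_num at h4
    refine h3.trans ?_
    norm_num
    exact h4

theorem infRatio_eq_zero {α : ℝ} (h : 1 / 2 < α) : infRatio α = 0 := by
  have hle : ∀ m : ℕ, 1 ≤ m → infRatio α ≤ ENNReal.ofReal (10 * (m : ℝ) ^ (1 - 2 * α)) := by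
    intro m hm
    have h1 : infRatio α ≤ (muEn (arm m) : ℝ≥0∞) / (side (arm m) : ℝ≥0∞) ^ α := by
      rw [infRatio]
      refine iInf₂_le_of_le (arm m) ⟨isZeroSet_arm hm, (0, 0), ?_⟩ le_rfl
      rw [mem_arm]
      refine ⟨0, by omega, ?_, ?_⟩
      · rw [X, if_neg (by omega)]
        positivity
      · have : 0 < m * m := Nat.mul_pos hm hm
        simpa using this
    refine h1.trans ?_
    have h2 : (muEn (arm m) : ℝ≥0∞) ≤ ((10 * m : ℕ) : ℝ≥0∞) := by
      have h3 : muEn (arm m) ≤ ((10 * m : ℕ) : ℕ∞) :=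
        (muEn_arm hm).trans (by exact_mod_cast (by omega : 7 * m + 3 ≤ 10 * m))
      have h4 := ENat.toENNReal_le.2 h3
      simpa using h4
    have hm0 : (0 : ℝ) < m := by exact_mod_cast hm
    have h5 : ((side (arm m) : ℕ) : ℝ≥0∞) ^ α = ENNReal.ofReal ((m : ℝ) ^ (2 * α)) := by
      rw [side_arm hm, Real.rpow_mul hm0.le]
      rw [← ENNReal.ofReal_rpow_of_pos (by positivity)]
      congr 1
      rw [Real.rpow_two, pow_two, ← ENNReal.ofReal_natCast]
      push_cast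
      rfl
    rw [h5]
    refine (ENNReal.div_le_div_right h2 _).trans ?_
    rw [← ENNReal.ofReal_natCast, ← ENNReal.ofReal_div_of_pos (by positivity)]
    apply ENNReal.ofReal_le_ofReal
    rw [Real.rpow_sub hm0, Real.rpow_one]
    push_cast
    apply le_of_eq
    ring
  have hlim : Filter.Tendsto (fun m : ℕ => ENNReal.ofReal (10 * (m : ℝ) ^ (1 - 2 * α)))
      Filter.atTop (nhds 0) := by
    have h1 : Filter.Tendsto (fun x : ℝ => x ^ (1 - 2 * α)) Filter.atTop (nhds 0) := by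
      have h2 := tendsto_rpow_neg_atTop (y := 2 * α - 1) (by linarith)
      have h3 : (fun x : ℝ => x ^ (-(2 * α - 1))) = fun x : ℝ => x ^ (1 - 2 * α) := by
        funext x
        congr 1
        ring
      rw [h3] at h2
      exact h2
    have h2 := (h1.comp tendsto_natCast_atTop_atTop).const_mul 10
    rw [mul_zero] at h2
    have h3 := ENNReal.tendsto_ofReal h2
    rw [ENNReal.ofReal_zero] at h3
    exact h3
  have h1 : infRatio α ≤ 0 := by
    refine ge_of_tendsto hlim ?_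
    filter_upwards [Filter.eventually_ge_atTop 1] with m hm
    exact hle m hm
  exact le_antisymm h1 bot_le

/-- **Theorem.** The critical exponent for the minimal enhanced spanning time is `1 / 2`. -/
theorem result : alphaMin = 1 / 2 := by
  have h : {α : ℝ | 0 < α ∧ infRatio α = 0} = Set.Ioi (1 / 2) := by
    ext α
    simp only [mem_setOf_eq, mem_Ioi]
    constructor
    · rintro ⟨h0, h1⟩
      by_contra hle
      push Not at hle
      have h2 := one_le_infRatio h0 hle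
      rw [h1] at h2
      exact absurd h2 (by simp)
    · intro h1
      exact ⟨by linarith, infRatio_eq_zero h1⟩
  rw [alphaMin, h, csInf_Ioi]

end Pool.Agent.Results.MP_3b4555_co.CriticalExponent
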